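import Mathlib
import Pool.Agent.Helper99.TubeProof

set_option autoImplicit false

namespace Pool.Agent.Results.MP_b669e1_gt.TubeBodies

open Pool.Agent.Helper99.Tube

/-- In every odd dimension `n ≥ 5` there is a body with connected, `C^∞`-smooth boundary that is
algebraically integrable and is not an ellipsoid. -/
theorem result : ∀ n : ℕ, Odd n → 5 ≤ n →
    ∃ K : Set (EuclideanSpace ℝ (Fin n)), IsBody K ∧ IsConnected (frontier K) ∧
      HasSmoothBoundary K ∧ IsAlgebraicallyIntegrable K ∧ ¬ IsEllipsoid K :=
  exists_body

end Pool.Agent.Results.MP_b669e1_gt.TubeBodies
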